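import Pool.Agent.helper90.LU.Asm

open IsLocalRing

namespace LG

open LU

universe u

/-- Data of a logarithmically smooth system adapted to a valuation: germs of curves
`(u i, w i)`, further frame elements `x`, and relations `j`, each a sum over `t` of a constant times a
Laurent monomial in the frame times a product of quotients at the germs. -/
structure GDat {k K : Type u} [Field k] [Field K] [Algebra k K] (V : ValuationSubring K)
    (ι X J T H : Type) [Fintype ι] [DecidableEq ι] [Fintype X] [DecidableEq X] [Fintype J]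
    [Fintype T] [Fintype H] where
  u : ι → K
  w : ι → K
  x : X → K
  Φ : ι → MvPolynomial (Fin 2) k
  gi : H → ι
  N : H → MvPolynomial (Fin 2) k
  D : H → MvPolynomial (Fin 2) k
  a : J → T → k
  e : J → T → (ι ⊕ X → ℤ)
  g : J → T → H → ℕ
  s : J → ι ⊕ X
  rk : J → ℕ
  hu0 : ∀ i, u i ≠ 0
  huV : ∀ i, u i ∈ V
  hwV : ∀ i, w i ∈ V
  hx0 : ∀ i, x i ≠ 0
  hxV : ∀ i, x i ∈ V
  hΦ : ∀ i, MvPolynomial.aeval ![u i, w i] (Φ i) = 0
  hΦ0 : ∀ i, MvPolynomial.aeval ![u i, w i] (MvPolynomial.pderiv 1 (Φ i)) ≠ 0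
  hΦV : ∀ i, (MvPolynomial.aeval ![u i, w i] (MvPolynomial.pderiv 1 (Φ i)))⁻¹ ∈ V
  hD0 : ∀ h, MvPolynomial.aeval ![u (gi h), w (gi h)] (D h) ≠ 0
  hDV : ∀ h, (MvPolynomial.aeval ![u (gi h), w (gi h)] (D h))⁻¹ ∈ V
  hmon : ∀ j t, a j t ≠ 0 → mon (Sum.elim u x) (e j t) ∈ V
  hrow : ∀ j, ∑ t, algebraMap k K (a j t) * (mon (Sum.elim u x) (e j t) *
    ∏ h, (MvPolynomial.aeval ![u (gi h), w (gi h)] (N h) /
      MvPolynomial.aeval ![u (gi h), w (gi h)] (D h)) ^ g j t h) = 0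
  hd1 : ∀ j, (∑ t, (e j t (s j) : K) * (algebraMap k K (a j t) * (mon (Sum.elim u x) (e j t) *
    ∏ h, (MvPolynomial.aeval ![u (gi h), w (gi h)] (N h) /
      MvPolynomial.aeval ![u (gi h), w (gi h)] (D h)) ^ g j t h)) ≠ 0) ∧
    (∑ t, (e j t (s j) : K) * (algebraMap k K (a j t) * (mon (Sum.elim u x) (e j t) *
    ∏ h, (MvPolynomial.aeval ![u (gi h), w (gi h)] (N h) /
      MvPolynomial.aeval ![u (gi h), w (gi h)] (D h)) ^ g j t h)))⁻¹ ∈ V
  hd0 : ∀ j j', j ≠ j' → rk j' ≤ rk j →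
    ∑ t, (e j' t (s j) : K) * (algebraMap k K (a j' t) * (mon (Sum.elim u x) (e j' t) *
    ∏ h, (MvPolynomial.aeval ![u (gi h), w (gi h)] (N h) /
      MvPolynomial.aeval ![u (gi h), w (gi h)] (D h)) ^ g j' t h)) = 0
  hdir : ∀ j j' t h, rk j' ≤ rk j → a j' t ≠ 0 → g j' t h ≠ 0 → s j = Sum.inl (gi h) →
    (u (gi h))⁻¹ ∉ V ∨ (N h = 1 ∧ D h = 1)

namespace GDat

variable {k K : Type u} [Field k] [Field K] [Algebra k K] {V : ValuationSubring K}
  {ι X J T H : Type} [Fintype ι] [DecidableEq ι] [Fintype X] [DecidableEq X] [Fintype J]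
  [Fintype T] [Fintype H] (d : GDat (k := k) V ι X J T H)

/-- the frame -/
def c : ι ⊕ X → K := Sum.elim d.u d.x

lemma c_ne (y : ι ⊕ X) : d.c y ≠ 0 := by
  rcases y with i | j
  · exact d.hu0 i
  · exact d.hx0 j

lemma c_mem (y : ι ⊕ X) : d.c y ∈ V := by
  rcases y with i | j
  · exact d.huV i
  · exact d.hxV j

/-- value of the germ factor -/
noncomputable def gv (o : H → ℕ) : K :=
  ∏ h, (MvPolynomial.aeval ![d.u (d.gi h), d.w (d.gi h)] (d.N h) /
      MvPolynomial.aeval ![d.u (d.gi h), d.w (d.gi h)] (d.D h)) ^ o h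

/-- exponents, trivial when the coefficient vanishes -/
noncomputable def e' (j : J) (t : T) : ι ⊕ X → ℤ := by
  classical exact if d.a j t = 0 then 0 else d.e j t

variable (hV : ∀ c : k, algebraMap k K c ∈ V)

include hV in
lemma ev_mem (i : ι) (q : MvPolynomial (Fin 2) k) :
    MvPolynomial.aeval ![d.u i, d.w i] q ∈ V := by
  apply aeval_mem hV
  intro x
  fin_cases x
  · exact d.huV i
  · exact d.hwV i

lemma exists_st : ∃ C D : Matrix (ι ⊕ X) (ι ⊕ X) ℤ, IsSt V d.c C D ∧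
      (∀ j t, Good V d.c C D (d.e' j t)) := by
  classical
  obtain ⟨C, D, h1, h2⟩ := perron_fam d.c_ne d.c_mem (fun x : J × T => d.e' x.1 x.2) (by
    rintro ⟨j, t⟩
    change mon d.c (d.e' j t) ∈ V
    unfold e'
    split_ifs with ha
    · have : mon d.c 0 = 1 := by simp [mon]
      rw [this]
      exact one_mem _
    · exact d.hmon j t ha)
  exact ⟨C, D, h1, fun j t => h2 (j, t)⟩

variable {C D : Matrix (ι ⊕ X) (ι ⊕ X) ℤ} (hst : IsSt V d.c C D)

/-- values of the variables -/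
noncomputable def zz (D : Matrix (ι ⊕ X) (ι ⊕ X) ℤ) : (ι ⊕ X) ⊕ ι → K :=
  Sum.elim (fun l => mon d.c (D l)) d.w

include hst in
lemma zz_mem (y : (ι ⊕ X) ⊕ ι) : d.zz D y ∈ V := by
  rcases y with l | i
  · exact hst.mem l
  · exact d.hwV i

/-- the local ring of the center on the ambient affine space -/
abbrev SD := SS V hV (d.zz D) (d.zz_mem hst)

noncomputable abbrev st : MvPolynomial ((ι ⊕ X) ⊕ ι) k →+* d.SD hV hst :=
  toS V hV (d.zz D) (d.zz_mem hst)

/-- the frame elements as polynomials -/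
noncomputable def Ct (C : Matrix (ι ⊕ X) (ι ⊕ X) ℤ)
    (y : ι ⊕ X) : MvPolynomial ((ι ⊕ X) ⊕ ι) k :=
  ∏ l, MvPolynomial.X (Sum.inl l) ^ (C y l).toNat

noncomputable def Z (l : ι ⊕ X) : d.SD hV hst :=
  d.st hV hst (MvPolynomial.X (Sum.inl l))

noncomputable def evK : d.SD hV hst →+* K :=
  V.subtype.comp (evS V hV (d.zz D) (d.zz_mem hst))

lemma evK_st (f : MvPolynomial ((ι ⊕ X) ⊕ ι) k) :
    d.evK hV hst (d.st hV hst f) = MvPolynomial.aeval (d.zz D) f := by
  change ((evS V hV (d.zz D) (d.zz_mem hst) (d.st hV hst f) : V) : K) = _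
  rw [evS_algebraMap, coe_evV]

lemma evK_Z (l) : d.evK hV hst (d.Z hV hst l) = mon d.c (D l) := by
  rw [Z, evK_st, MvPolynomial.aeval_X]
  rfl

/-- monomials of the frame in the local ring -/
noncomputable def MS (a : ι ⊕ X → ℤ) : d.SD hV hst :=
  monS (d.Z hV hst) (Matrix.vecMul a C)

lemma good_unit {a : ι ⊕ X → ℤ} (h : Good V d.c C D a) (l) :
    0 ≤ (Matrix.vecMul a C) l ∨ IsUnit (d.Z hV hst l) := by
  rcases h l with h | h
  · exact Or.inl h
  · right
    rw [Z, isUnit_toS_iff, MvPolynomial.aeval_X]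
    exact ⟨mon_ne_zero d.c_ne _, h⟩

lemma map_Ct {E : Type*} [Field E] (φ : d.SD hV hst →+* E) (y) :
    φ (d.st hV hst (Ct C y)) = mon (fun l => φ (d.Z hV hst l)) (C y) := by
  rw [Ct, map_prod, map_prod, mon]
  refine Finset.prod_congr rfl fun l _ => ?_
  rw [map_pow, map_pow, ← zpow_natCast, Int.toNat_of_nonneg (hst.nonneg y l)]
  rfl

lemma map_MS {E : Type*} [Field E] (φ : d.SD hV hst →+* E)
    (hφ : ∀ l, φ (d.Z hV hst l) ≠ 0) {a : ι ⊕ X → ℤ} (h : Good V d.c C D a) :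
    φ (d.MS hV hst a) = mon (fun y => φ (d.st hV hst (Ct C y))) a := by
  rw [MS, monS_map φ hφ (d.good_unit hV hst h), ← mon_vecMul hφ]
  congr 1
  funext y
  exact (d.map_Ct hV hst φ y).symm

lemma evK_Z_ne (l) : d.evK hV hst (d.Z hV hst l) ≠ 0 := by
  rw [evK_Z]
  exact mon_ne_zero d.c_ne _

include hV hst in
lemma aeval_Ct (y) : MvPolynomial.aeval (d.zz D) (Ct (k := k) C y) = d.c y := by
  rw [← d.evK_st hV hst, map_Ct]
  simp only [evK_Z]
  rw [mon_vecMul d.c_ne]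
  have : Matrix.vecMul (C y) D = (C * D) y := by
    rfl
  rw [this, hst.CD, mon_one]

lemma evK_MS {a : ι ⊕ X → ℤ} (h : Good V d.c C D a) :
    d.evK hV hst (d.MS hV hst a) = mon d.c a := by
  rw [map_MS d hV hst _ (d.evK_Z_ne hV hst) h]
  congr 1
  funext y
  rw [evK_st, d.aeval_Ct hV hst]

/-- a polynomial at the germ `i` -/
noncomputable def gp (C : Matrix (ι ⊕ X) (ι ⊕ X) ℤ)
    (i : ι) (q : MvPolynomial (Fin 2) k) : MvPolynomial ((ι ⊕ X) ⊕ ι) k :=
  MvPolynomial.aeval ![Ct C (Sum.inl i), MvPolynomial.X (Sum.inr i)] q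

include hV hst in
lemma aeval_gp (i : ι) (q : MvPolynomial (Fin 2) k) :
    MvPolynomial.aeval (d.zz D) (gp C i q) = MvPolynomial.aeval ![d.u i, d.w i] q := by
  rw [gp, aeval_two, d.aeval_Ct hV hst, MvPolynomial.aeval_X]
  rfl

noncomputable def GG (h : H) : d.SD hV hst :=
  d.st hV hst (gp C (d.gi h) (d.N h)) * Ring.inverse (d.st hV hst (gp C (d.gi h) (d.D h)))

lemma unit_D (h : H) : IsUnit (d.st hV hst (gp C (d.gi h) (d.D h))) := by
  rw [isUnit_toS_iff, d.aeval_gp hV hst]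
  exact ⟨d.hD0 h, d.hDV h⟩

lemma map_GG {E : Type*} [Field E] (φ : d.SD hV hst →+* E) (h : H) :
    φ (d.GG hV hst h) = φ (d.st hV hst (gp C (d.gi h) (d.N h))) /
      φ (d.st hV hst (gp C (d.gi h) (d.D h))) := by
  have hu := d.unit_D hV hst h
  have h1 : φ (Ring.inverse (d.st hV hst (gp C (d.gi h) (d.D h)))) =
      (φ (d.st hV hst (gp C (d.gi h) (d.D h))))⁻¹ := by
    apply eq_inv_of_mul_eq_one_left
    rw [← map_mul, Ring.inverse_mul_cancel _ hu, map_one]
  rw [GG, map_mul, h1, div_eq_mul_inv]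

lemma evK_GG (h : H) : d.evK hV hst (d.GG hV hst h) =
    MvPolynomial.aeval ![d.u (d.gi h), d.w (d.gi h)] (d.N h) /
      MvPolynomial.aeval ![d.u (d.gi h), d.w (d.gi h)] (d.D h) := by
  rw [map_GG, evK_st, evK_st, d.aeval_gp hV hst, d.aeval_gp hV hst]

/-- germ factor in the local ring -/
noncomputable def GO (o : H → ℕ) : d.SD hV hst := ∏ h, d.GG hV hst h ^ o h

lemma evK_GO (o : H → ℕ) : d.evK hV hst (d.GO hV hst o) = d.gv o := by
  rw [GO, map_prod, gv]
  refine Finset.prod_congr rfl fun h _ => ?_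
  rw [map_pow, evK_GG]

/-- etale rows of the germs -/
noncomputable def FA (i : ι) : d.SD hV hst := d.st hV hst (gp C i (d.Φ i))

/-- a term of a row -/
noncomputable def tm (j : J) (t : T) : d.SD hV hst :=
  d.st hV hst (MvPolynomial.C (d.a j t)) * (d.MS hV hst (d.e' j t) * d.GO hV hst (d.g j t))

/-- rows -/
noncomputable def FR (j : J) : d.SD hV hst := ∑ t, d.tm hV hst j t

lemma evK_inj {s : d.SD hV hst} : d.evK hV hst s = 0 ↔
    evS V hV (d.zz D) (d.zz_mem hst) s = 0 := by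
  constructor
  · intro h
    exact Subtype.ext h
  · intro h
    change ((evS V hV (d.zz D) (d.zz_mem hst) s : V) : K) = 0
    rw [h]
    rfl

lemma evK_FA (i) : d.evK hV hst (d.FA hV hst i) = 0 := by
  rw [FA, evK_st, d.aeval_gp hV hst, d.hΦ]

lemma evK_tm (hG : ∀ j t, Good V d.c C D (d.e' j t)) (j t) : d.evK hV hst (d.tm hV hst j t) =
    algebraMap k K (d.a j t) * (mon d.c (d.e j t) * d.gv (d.g j t)) := by
  rw [tm, map_mul, map_mul, evK_st, MvPolynomial.aeval_C, d.evK_MS hV hst (hG j t), evK_GO]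
  by_cases ha : d.a j t = 0
  · rw [ha, map_zero, zero_mul, zero_mul]
  · rw [e', if_neg ha]

lemma evK_FR (hG : ∀ j t, Good V d.c C D (d.e' j t)) (j) :
    d.evK hV hst (d.FR hV hst j) = 0 := by
  rw [FR, map_sum, ← d.hrow j]
  exact Finset.sum_congr rfl fun t _ => d.evK_tm hV hst hG j t

end GDat

end LG
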