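import Pool.Agent.helper90.LG.GDat

open IsLocalRing

namespace LG

open LU

universe u

namespace GDat

variable {k K : Type u} [Field k] [Field K] [Algebra k K] {V : ValuationSubring K}
  {ι X J T H : Type} [Fintype ι] [DecidableEq ι] [Fintype X] [DecidableEq X] [Fintype J]
  [Fintype T] [Fintype H] (d : GDat (k := k) V ι X J T H) (hV : ∀ c : k, algebraMap k K c ∈ V)
  {C D : Matrix (ι ⊕ X) (ι ⊕ X) ℤ} (hst : IsSt V d.c C D)

noncomputable abbrev ps (v : (ι ⊕ X) ⊕ ι → ResidueField V) :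
    d.SD hV hst →+* DualNumber (ResidueField V) :=
  psi V hV (d.zz D) (d.zz_mem hst) v

noncomputable def rz (y : (ι ⊕ X) ⊕ ι) : ResidueField V := residue V ⟨d.zz D y, d.zz_mem hst y⟩

lemma fst_ps (v : (ι ⊕ X) ⊕ ι → ResidueField V) (s : d.SD hV hst) :
    (d.ps hV hst v s).fst = residue V (evS V hV (d.zz D) (d.zz_mem hst) s) := fst_psi _ _ _ _ _ _

lemma evS_X (y : (ι ⊕ X) ⊕ ι) : evS V hV (d.zz D) (d.zz_mem hst)
    (d.st hV hst (MvPolynomial.X y)) = ⟨d.zz D y, d.zz_mem hst y⟩ := by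
  rw [evS_algebraMap]
  apply Subtype.ext
  rw [coe_evV, MvPolynomial.aeval_X]

lemma LD_Z (v : (ι ⊕ X) ⊕ ι → ResidueField V) (ρ : ι ⊕ X → ResidueField V)
    (hρ : ∀ l, v (Sum.inl l) = ρ l * d.rz hst (Sum.inl l)) (l) :
    LD (d.ps hV hst v) (d.Z hV hst l) (ρ l) := by
  unfold LD
  rw [fst_ps, Z, evS_X, snd_psi_X]
  exact hρ l

lemma LD_MS (v : (ι ⊕ X) ⊕ ι → ResidueField V) (ρ : ι ⊕ X → ResidueField V)
    (hρ : ∀ l, v (Sum.inl l) = ρ l * d.rz hst (Sum.inl l))
    {a : ι ⊕ X → ℤ} (h : Good V d.c C D a) :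
    LD (d.ps hV hst v) (d.MS hV hst a) (∑ l, ((Matrix.vecMul a C) l : ResidueField V) * ρ l) :=
  LD.monS (d.LD_Z hV hst v ρ hρ) (d.good_unit hV hst h)

lemma st_Ct (y) : d.st hV hst (Ct C y) = monS (d.Z hV hst) (C y) := by
  rw [Ct, map_prod, monS]
  refine Finset.prod_congr rfl fun l _ => ?_
  rw [map_pow, zp, if_pos (hst.nonneg y l)]
  rfl

lemma LD_Ct (v : (ι ⊕ X) ⊕ ι → ResidueField V) (ρ : ι ⊕ X → ResidueField V)
    (hρ : ∀ l, v (Sum.inl l) = ρ l * d.rz hst (Sum.inl l)) (y) :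
    LD (d.ps hV hst v) (d.st hV hst (Ct C y)) (∑ l, (C y l : ResidueField V) * ρ l) := by
  rw [st_Ct]
  exact LD.monS (d.LD_Z hV hst v ρ hρ) (fun l => Or.inl (hst.nonneg y l))

/-- residue of a polynomial at the germ -/
noncomputable def rg (i : ι) (q : MvPolynomial (Fin 2) k) : ResidueField V :=
  residue V ⟨MvPolynomial.aeval ![d.u i, d.w i] q, d.ev_mem hV i q⟩

lemma evS_gp (i : ι) (q : MvPolynomial (Fin 2) k) :
    evS V hV (d.zz D) (d.zz_mem hst) (d.st hV hst (gp C i q)) =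
      ⟨MvPolynomial.aeval ![d.u i, d.w i] q, d.ev_mem hV i q⟩ := by
  rw [evS_algebraMap]
  apply Subtype.ext
  rw [coe_evV, d.aeval_gp hV hst]

/-- derivative of a polynomial at the germ -/
lemma snd_gp' (v : (ι ⊕ X) ⊕ ι → ResidueField V) (i : ι) (q : MvPolynomial (Fin 2) k) :
    (d.ps hV hst v (d.st hV hst (gp C i q))).snd =
      (d.ps hV hst v (d.st hV hst (Ct C (Sum.inl i)))).snd * d.rg hV i (MvPolynomial.pderiv 0 q) +
      v (Sum.inr i) * d.rg hV i (MvPolynomial.pderiv 1 q) := by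
  unfold gp ps
  rw [snd_psi_eval, snd_psi_X, ← evS_algebraMap, ← evS_algebraMap]
  have h : ∀ q', residue V (evS V hV (d.zz D) (d.zz_mem hst) (d.st hV hst
      (MvPolynomial.aeval ![Ct C (Sum.inl i), MvPolynomial.X (Sum.inr i)] q'))) = d.rg hV i q' := by
    intro q'
    change residue V (evS V hV (d.zz D) (d.zz_mem hst) (d.st hV hst (gp C i _))) = _
    rw [evS_gp]
    rfl
  exact congrArg₂ (· + ·) (congrArg _ (h _)) (congrArg _ (h _))

/-- the tangent vector in the logarithmic direction `y` of the frame; if `y` is a germ parameter,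
then it is made tangent to the germ -/
noncomputable def vL (y : ι ⊕ X) : (ι ⊕ X) ⊕ ι → ResidueField V :=
  Sum.elim (fun l => ((D l y : ℤ) : ResidueField V) * d.rz hst (Sum.inl l))
    (fun i => if y = Sum.inl i then
      - (residue V ⟨d.u i, d.huV i⟩ * d.rg hV i (MvPolynomial.pderiv 0 (d.Φ i)) *
        (d.rg hV i (MvPolynomial.pderiv 1 (d.Φ i)))⁻¹) else 0)

lemma vL_inl (y l) : d.vL hV hst y (Sum.inl l) =
    ((D l y : ℤ) : ResidueField V) * d.rz hst (Sum.inl l) := rfl

lemma snd_Ct_L (y : ι ⊕ X) (i : ι) :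
    (d.ps hV hst (d.vL hV hst y) (d.st hV hst (Ct C (Sum.inl i)))).snd =
      if y = Sum.inl i then residue V ⟨d.u i, d.huV i⟩ else 0 := by
  have := d.LD_Ct hV hst (d.vL hV hst y) (fun l => ((D l y : ℤ) : ResidueField V))
    (fun l => rfl) (Sum.inl i)
  unfold LD at this
  rw [this]
  have e1 : ∑ l, (C (Sum.inl i) l : ResidueField V) * ((D l y : ℤ) : ResidueField V) =
      (((C * D) (Sum.inl i) y : ℤ) : ResidueField V) := by
    rw [Matrix.mul_apply]
    push_cast
    rfl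
  rw [e1, hst.CD]
  by_cases hi : y = Sum.inl i
  · subst hi
    have e2 : (d.ps hV hst (d.vL hV hst (Sum.inl i)) (d.st hV hst (Ct C (Sum.inl i)))).fst =
        residue V ⟨d.u i, d.huV i⟩ := by
      rw [fst_ps, evS_algebraMap]
      congr 1
      apply Subtype.ext
      rw [coe_evV, d.aeval_Ct hV hst]
      rfl
    rw [e2]
    simp
  · rw [if_neg hi, Matrix.one_apply_ne (Ne.symm hi)]
    simp

lemma rg_ne (i : ι) (q : MvPolynomial (Fin 2) k)
    (h0 : MvPolynomial.aeval ![d.u i, d.w i] q ≠ 0)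
    (h1 : (MvPolynomial.aeval ![d.u i, d.w i] q)⁻¹ ∈ V) : d.rg hV i q ≠ 0 := by
  rw [rg, Ne, residue_eq_zero_iff, mem_maximalIdeal, mem_nonunits_iff, not_not, isUnit_iff_inv]
  exact ⟨h0, h1⟩

lemma psL_FA (y : ι ⊕ X) (i : ι) :
    (d.ps hV hst (d.vL hV hst y) (d.FA hV hst i)).snd = 0 := by
  rw [FA, snd_gp', snd_Ct_L]
  change _ + (if y = Sum.inl i then _ else 0) * _ = _
  by_cases hi : y = Sum.inl i
  · have := d.rg_ne hV i _ (d.hΦ0 i) (d.hΦV i)
    rw [if_pos hi, if_pos hi]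
    field_simp
    ring
  · rw [if_neg hi, if_neg hi, zero_mul, zero_mul, add_zero]

lemma LD_GG (j j' : J) (t : T) (h : H) (hrk : d.rk j' ≤ d.rk j) (ha : d.a j' t ≠ 0)
    (hg : d.g j' t h ≠ 0) : LD (d.ps hV hst (d.vL hV hst (d.s j))) (d.GG hV hst h) 0 := by
  have key : (d.N h = 1 ∧ d.D h = 1) ∨ ∀ q : MvPolynomial (Fin 2) k,
      (d.ps hV hst (d.vL hV hst (d.s j)) (d.st hV hst (gp C (d.gi h) q))).snd = 0 := by
    by_cases hi : d.s j = Sum.inl (d.gi h)
    · rcases d.hdir j j' t h hrk ha hg hi with h1 | h1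
      · right
        intro q
        have hr : residue V ⟨d.u (d.gi h), d.huV (d.gi h)⟩ = 0 := by
          rw [residue_eq_zero_iff, mem_maximalIdeal, mem_nonunits_iff, isUnit_iff_inv]
          rintro ⟨-, h'⟩
          exact h1 h'
        rw [snd_gp', snd_Ct_L, hr]
        change (if _ then _ else _) * _ + (if _ then _ else _) * _ = _
        rw [hr]
        simp
      · exact Or.inl h1
    · right
      intro q
      rw [snd_gp', snd_Ct_L]
      change _ + (if _ then _ else _) * _ = _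
      rw [if_neg hi, if_neg hi]
      simp
  rcases key with ⟨h1, h2⟩ | h0
  · have : d.GG hV hst h = 1 := by
      rw [GG, h1, h2, gp, map_one, map_one, Ring.inverse_one, mul_one]
    rw [this]
    exact LD.one _
  · have hN : LD (d.ps hV hst (d.vL hV hst (d.s j))) (d.st hV hst (gp C (d.gi h) (d.N h))) 0 := by
      unfold LD
      rw [h0, zero_mul]
    have hD : LD (d.ps hV hst (d.vL hV hst (d.s j))) (d.st hV hst (gp C (d.gi h) (d.D h))) 0 := by
      unfold LD
      rw [h0, zero_mul]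
    have := hN.mul (hD.inv (d.unit_D hV hst h))
    simpa [GG] using this

lemma LD_pow0 {E : Type*} [Field E] {S : Type*} [CommRing S] {ψ : S →+* DualNumber E} {x : S}
    (h : LD ψ x 0) (m : ℕ) : LD ψ (x ^ m) 0 := by
  induction m with
  | zero => rw [pow_zero]; exact LD.one _
  | succ m ih =>
    rw [pow_succ]
    simpa using ih.mul h

lemma LD_prod0 {E : Type*} [Field E] {S : Type*} [CommRing S] {ψ : S →+* DualNumber E}
    {ι : Type*} (s : Finset ι) {x : ι → S} (h : ∀ i ∈ s, LD ψ (x i) 0) :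
    LD ψ (∏ i ∈ s, x i) 0 := by
  classical
  induction s using Finset.induction_on with
  | empty => rw [Finset.prod_empty]; exact LD.one _
  | insert a s ha ih =>
    rw [Finset.prod_insert ha]
    have h1 := h a (Finset.mem_insert_self _ _)
    have h2 := ih fun i hi => h i (Finset.mem_insert_of_mem hi)
    simpa using h1.mul h2

lemma LD_GO (j j' : J) (t : T) (hrk : d.rk j' ≤ d.rk j) (ha : d.a j' t ≠ 0) :
    LD (d.ps hV hst (d.vL hV hst (d.s j))) (d.GO hV hst (d.g j' t)) 0 := by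
  unfold GO
  apply LD_prod0
  intro h _
  by_cases hg : d.g j' t h = 0
  · rw [hg, pow_zero]
    exact LD.one _
  · exact LD_pow0 (d.LD_GG hV hst j j' t h hrk ha hg) _

lemma vecMul_sum (a : ι ⊕ X → ℤ) (y : ι ⊕ X) (hCD : C * D = 1) :
    ∑ l, ((Matrix.vecMul a C) l : ResidueField V) * ((D l y : ℤ) : ResidueField V) =
      ((a y : ℤ) : ResidueField V) := by
  have h1 : Matrix.vecMul (Matrix.vecMul a C) D = a := by
    rw [Matrix.vecMul_vecMul, hCD, Matrix.vecMul_one]
  have h2 := congrFun h1 y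
  rw [← h2]
  simp only [Matrix.vecMul, dotProduct]
  push_cast
  rfl

lemma LD_L (y : ι ⊕ X) {a : ι ⊕ X → ℤ} (h : Good V d.c C D a) :
    LD (d.ps hV hst (d.vL hV hst y)) (d.MS hV hst a) ((a y : ℤ) : ResidueField V) := by
  have := d.LD_MS hV hst (d.vL hV hst y)
    (fun l => ((D l y : ℤ) : ResidueField V)) (fun l => rfl) h
  rwa [vecMul_sum a _ hst.CD] at this

lemma snd_tm (hG : ∀ j t, Good V d.c C D (d.e' j t)) (j j' : J) (t : T)
    (hrk : d.rk j' ≤ d.rk j) :
    (d.ps hV hst (d.vL hV hst (d.s j)) (d.tm hV hst j' t)).snd =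
      ((d.e j' t (d.s j) : ℤ) : ResidueField V) *
        residue V (evS V hV (d.zz D) (d.zz_mem hst) (d.tm hV hst j' t)) := by
  by_cases ha : d.a j' t = 0
  · have : d.tm hV hst j' t = 0 := by rw [tm, ha, map_zero, map_zero, zero_mul]
    rw [this]
    simp
  · have g1 : LD (d.ps hV hst (d.vL hV hst (d.s j))) (d.st hV hst (MvPolynomial.C (d.a j' t))) 0 := by
      unfold LD
      rw [snd_psi_C]
      simp
    have g3 := d.LD_L hV hst (d.s j) (hG j' t)
    have g4 := g1.mul (g3.mul (d.LD_GO hV hst j j' t hrk ha))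
    unfold LD at g4
    change (d.ps hV hst (d.vL hV hst (d.s j)) (d.tm hV hst j' t)).snd = _ *
      (d.ps hV hst (d.vL hV hst (d.s j)) (d.tm hV hst j' t)).fst at g4
    rw [g4, fst_ps, zero_add, add_zero, e', if_neg ha]

/-- the derivative of a row is the residue of the weighted sum of its terms -/
lemma snd_FR (hG : ∀ j t, Good V d.c C D (d.e' j t)) (j j' : J) (hrk : d.rk j' ≤ d.rk j) (y : V)
    (hy : (y : K) = ∑ t, (d.e j' t (d.s j) : K) * (algebraMap k K (d.a j' t) *
      (mon d.c (d.e j' t) * d.gv (d.g j' t)))) :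
    (d.ps hV hst (d.vL hV hst (d.s j)) (d.FR hV hst j')).snd = residue V y := by
  rw [FR, map_sum, TrivSqZeroExt.snd_sum]
  rw [Finset.sum_congr rfl fun t _ => d.snd_tm hV hst hG j j' t hrk]
  have : y = ∑ t, ((d.e j' t (d.s j) : ℤ) : V) *
      evS V hV (d.zz D) (d.zz_mem hst) (d.tm hV hst j' t) := by
    apply Subtype.ext
    rw [hy]
    have e1 : ((∑ t, ((d.e j' t (d.s j) : ℤ) : V) *
      evS V hV (d.zz D) (d.zz_mem hst) (d.tm hV hst j' t) : V) : K) =
      ∑ t, ((d.e j' t (d.s j) : ℤ) : K) * d.evK hV hst (d.tm hV hst j' t) := by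
      change V.subtype _ = _
      rw [map_sum]
      refine Finset.sum_congr rfl fun t _ => ?_
      rw [map_mul, map_intCast]
      rfl
    rw [e1]
    refine Finset.sum_congr rfl fun t _ => ?_
    rw [d.evK_tm hV hst hG]
  rw [this, map_sum]
  refine Finset.sum_congr rfl fun t _ => ?_
  rw [map_mul, map_intCast]

/-- tangent vectors of the germ rows -/
noncomputable def vA (V : ValuationSubring K) (i : ι) :
    (ι ⊕ X) ⊕ ι → ResidueField V := Sum.elim 0 (Pi.single i 1)

lemma snd_Ct_A (i : ι) (y) :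
    (d.ps hV hst (vA V i) (d.st hV hst (Ct C y))).snd = 0 := by
  have := d.LD_Ct hV hst (vA V i) 0 (by intro l; simp [vA]) y
  unfold LD at this
  rw [this]
  simp

lemma psA_FA (i i' : ι) :
    (d.ps hV hst (vA V i) (d.FA hV hst i')).snd =
      if i' = i then d.rg hV i (MvPolynomial.pderiv 1 (d.Φ i)) else 0 := by
  rw [FA, snd_gp', snd_Ct_A, zero_mul, zero_add]
  change (Pi.single i 1 : ι → ResidueField V) i' * _ = _
  rw [Pi.single_apply]
  split_ifs with h
  · subst h; rw [one_mul]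
  · rw [zero_mul]

end GDat

end LG
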