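import Pool.Agent.helper90.LG.GMain

/-!
Adding tame Kummer elements to a logarithmically smooth system.
-/

namespace LG

open LU

universe u

section ext

variable {ι X L : Type} [Fintype ι] [Fintype X] [Fintype L]

/-- extension of exponents -/
def ext (e : ι ⊕ X → ℤ) (f : L → ℤ) : ι ⊕ (X ⊕ L) → ℤ :=
  Sum.elim (fun i => e (Sum.inl i)) (Sum.elim (fun x => e (Sum.inr x)) f)

/-- extension of directions -/
def mp : ι ⊕ X → ι ⊕ (X ⊕ L) := Sum.elim Sum.inl (fun x => Sum.inr (Sum.inl x))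

omit [Fintype ι] [Fintype X] [Fintype L] in
lemma ext_mp (e : ι ⊕ X → ℤ) (f : L → ℤ) (y : ι ⊕ X) : ext e f (mp y) = e y := by
  rcases y with i | x <;> rfl

lemma mon_ext {E : Type*} [Field E] (u : ι → E) (x : X → E) (z : L → E) (e : ι ⊕ X → ℤ)
    (f : L → ℤ) : mon (Sum.elim u (Sum.elim x z)) (ext e f) = mon (Sum.elim u x) e * mon z f := by
  unfold mon ext
  rw [Fintype.prod_sum_type, Fintype.prod_sum_type, Fintype.prod_sum_type]
  simp only [Sum.elim_inl, Sum.elim_inr]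
  rw [mul_assoc]

lemma mon_ext' {E : Type*} [Field E] (F : ι ⊕ (X ⊕ L) → E) (e : ι ⊕ X → ℤ)
    (f : L → ℤ) : mon F (ext e f) = mon (fun y => F (mp y)) e *
      mon (fun l => F (Sum.inr (Sum.inr l))) f := by
  unfold mon ext mp
  rw [Fintype.prod_sum_type, Fintype.prod_sum_type, Fintype.prod_sum_type]
  simp only [Sum.elim_inl, Sum.elim_inr]
  rw [mul_assoc]

lemma mon_inl {E : Type*} [Field E] (u : ι → E) (x : X → E) (e : ι → ℤ) :
    mon (Sum.elim u x) (Sum.elim e 0) = mon u e := by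
  unfold mon
  rw [Fintype.prod_sum_type]
  simp

end ext

variable {k K : Type u} [Field k] [Field K] [Algebra k K] {V : ValuationSubring K}
  {ι X J T H : Type} [Fintype ι] [DecidableEq ι] [Fintype X] [DecidableEq X] [Fintype J]
  [Fintype T] [Fintype H]

/-- Kummer elements over a system. -/
structure KumDat (d : GDat (k := k) V ι X J T H) (L H2 : Type) [Fintype L] [DecidableEq L]
    [Fintype H2] where
  ζ : L → K
  m : L → ℕ
  E : L → ι → ℤ
  G : L → H2 → ℕ
  gi : H2 → ι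
  N : H2 → MvPolynomial (Fin 2) k
  D : H2 → MvPolynomial (Fin 2) k
  hζ0 : ∀ l, ζ l ≠ 0
  hm : ∀ l, (m l : k) ≠ 0
  hN0 : ∀ h, MvPolynomial.aeval ![d.u (gi h), d.w (gi h)] (N h) ≠ 0
  hNV : ∀ h, (MvPolynomial.aeval ![d.u (gi h), d.w (gi h)] (N h))⁻¹ ∈ V
  hD0 : ∀ h, MvPolynomial.aeval ![d.u (gi h), d.w (gi h)] (D h) ≠ 0
  hDV : ∀ h, (MvPolynomial.aeval ![d.u (gi h), d.w (gi h)] (D h))⁻¹ ∈ V
  rel : ∀ l, ζ l ^ m l = mon d.u (E l) *
    ∏ h, (MvPolynomial.aeval ![d.u (gi h), d.w (gi h)] (N h) /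
      MvPolynomial.aeval ![d.u (gi h), d.w (gi h)] (D h)) ^ G l h

namespace KumDat

variable {d : GDat (k := k) V ι X J T H} {L H2 : Type} [Fintype L] [DecidableEq L]
    [Fintype H2] (q : KumDat d L H2)

noncomputable def sg (l : L) : ℤ := by
  classical exact if q.ζ l ∈ V then 1 else -1

lemma sg_sq (l : L) : q.sg l * q.sg l = 1 := by
  unfold sg
  split_ifs <;> rfl

/-- frame elements -/
noncomputable def zf (l : L) : K := q.ζ l ^ q.sg l

lemma zf_ne (l : L) : q.zf l ≠ 0 := zpow_ne_zero _ (q.hζ0 l)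

lemma zf_mem (l : L) : q.zf l ∈ V := by
  unfold zf sg
  split_ifs with h
  · simpa using h
  · rw [zpow_neg, zpow_one]
    exact (V.mem_or_inv_mem _).resolve_left h

lemma zf_pow (l : L) : q.zf l ^ q.sg l = q.ζ l := by
  rw [zf, ← zpow_mul, sg_sq, zpow_one]

/-- coefficients -/
def ka (d : GDat (k := k) V ι X J T H) : J ⊕ L → T ⊕ Bool → k
  | Sum.inl j, Sum.inl t => d.a j t
  | Sum.inl _, Sum.inr _ => 0
  | Sum.inr _, Sum.inl _ => 0
  | Sum.inr _, Sum.inr false => 1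
  | Sum.inr _, Sum.inr true => -1

noncomputable def ke : J ⊕ L → T ⊕ Bool → (ι ⊕ (X ⊕ L) → ℤ)
  | Sum.inl j, Sum.inl t => ext (d.e j t) 0
  | Sum.inl _, Sum.inr _ => 0
  | Sum.inr _, Sum.inl _ => 0
  | Sum.inr l, Sum.inr false => ext (Sum.elim (q.E l) 0) (Pi.single l (-(q.m l * q.sg l)))
  | Sum.inr _, Sum.inr true => 0

def kg : J ⊕ L → T ⊕ Bool → (H ⊕ H2 → ℕ)
  | Sum.inl j, Sum.inl t => Sum.elim (d.g j t) 0
  | Sum.inl _, Sum.inr _ => 0
  | Sum.inr _, Sum.inl _ => 0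
  | Sum.inr l, Sum.inr false => Sum.elim 0 (q.G l)
  | Sum.inr _, Sum.inr true => 0

/-- sum over the terms of an old row -/
lemma sum_old {E : Type*} [Field E] (κ : k →+* E) (wt : (ι ⊕ (X ⊕ L) → ℤ) → E)
    (μ : (ι ⊕ (X ⊕ L) → ℤ) → E) (γ : (H ⊕ H2 → ℕ) → E) (j : J) :
    ∑ t, wt (q.ke (Sum.inl j) t) * (κ (ka d (Sum.inl j : J ⊕ L) t) *
      (μ (q.ke (Sum.inl j) t) * γ (q.kg (Sum.inl j) t))) =
    ∑ t, wt (ext (d.e j t) 0) * (κ (d.a j t) * (μ (ext (d.e j t) 0) *
      γ (Sum.elim (d.g j t) 0))) := by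
  rw [Fintype.sum_sum_type]
  simp only [ke, ka, kg, map_zero, zero_mul, mul_zero, Finset.sum_const_zero, add_zero]

/-- sum over the terms of a Kummer row -/
lemma sum_new {E : Type*} [Field E] (κ : k →+* E) (wt : (ι ⊕ (X ⊕ L) → ℤ) → E)
    (μ : (ι ⊕ (X ⊕ L) → ℤ) → E) (γ : (H ⊕ H2 → ℕ) → E) (l : L) :
    ∑ t, wt (q.ke (Sum.inr l) t) * (κ (ka d (Sum.inr l : J ⊕ L) t) *
      (μ (q.ke (Sum.inr l) t) * γ (q.kg (Sum.inr l) t))) =
    wt (ext (Sum.elim (q.E l) 0) (Pi.single l (-(q.m l * q.sg l)))) *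
      (μ (ext (Sum.elim (q.E l) 0) (Pi.single l (-(q.m l * q.sg l)))) *
        γ (Sum.elim 0 (q.G l))) - wt 0 * (μ 0 * γ 0) := by
  rw [Fintype.sum_sum_type, Fintype.sum_bool]
  simp only [ke, ka, kg, map_zero, zero_mul, mul_zero, Finset.sum_const_zero, zero_add, map_one,
    one_mul, map_neg]
  ring

/-- numerators and denominators -/
def kf {A : Type*} (N : H → A) (N' : H2 → A) : H ⊕ H2 → A := Sum.elim N N'

omit [Fintype ι] [DecidableEq ι] [Fintype X] [DecidableEq X] [Fintype J] [Fintype T]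
  [Fintype L] [DecidableEq L] in
lemma prod_kf {E : Type*} [Field E] (f : H ⊕ H2 → E) (a : H → ℕ) (b : H2 → ℕ) :
    ∏ h, f h ^ (Sum.elim a b : H ⊕ H2 → ℕ) h =
      (∏ h, f (Sum.inl h) ^ a h) * ∏ h, f (Sum.inr h) ^ b h := by
  rw [Fintype.prod_sum_type]
  rfl

/-- value of the quotient at a germ -/
noncomputable def qv (d : GDat (k := k) V ι X J T H) (q : KumDat d L H2) (h : H ⊕ H2) : K :=
  MvPolynomial.aeval ![d.u (Sum.elim d.gi q.gi h), d.w (Sum.elim d.gi q.gi h)]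
    (Sum.elim d.N q.N h) /
  MvPolynomial.aeval ![d.u (Sum.elim d.gi q.gi h), d.w (Sum.elim d.gi q.gi h)]
    (Sum.elim d.D q.D h)

lemma old_sum (wt : (ι ⊕ (X ⊕ L) → ℤ) → K) (j : J) :
    ∑ t, wt (q.ke (Sum.inl j) t) * (algebraMap k K (ka d (Sum.inl j : J ⊕ L) t) *
      (mon (Sum.elim d.u (Sum.elim d.x q.zf)) (q.ke (Sum.inl j) t) *
        ∏ h, qv d q h ^ q.kg (Sum.inl j) t h)) =
    ∑ t, wt (ext (d.e j t) 0) * (algebraMap k K (d.a j t) * (mon (Sum.elim d.u d.x) (d.e j t) *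
      ∏ h, (MvPolynomial.aeval ![d.u (d.gi h), d.w (d.gi h)] (d.N h) /
      MvPolynomial.aeval ![d.u (d.gi h), d.w (d.gi h)] (d.D h)) ^ d.g j t h)) := by
  rw [q.sum_old (algebraMap k K) wt (fun e => mon (Sum.elim d.u (Sum.elim d.x q.zf)) e)
    (fun o => ∏ h, qv d q h ^ o h) j]
  refine Finset.sum_congr rfl fun t _ => ?_
  have h1 : mon q.zf (0 : L → ℤ) = 1 := by simp [mon]
  rw [mon_ext, h1, mul_one, prod_kf]
  simp [qv]

lemma qv_new (l : L) : ∏ h, qv d q h ^ (Sum.elim 0 (q.G l) : H ⊕ H2 → ℕ) h =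
    ∏ h, (MvPolynomial.aeval ![d.u (q.gi h), d.w (q.gi h)] (q.N h) /
      MvPolynomial.aeval ![d.u (q.gi h), d.w (q.gi h)] (q.D h)) ^ q.G l h := by
  rw [prod_kf]
  simp [qv]

lemma kum_mon (l : L) :
    mon (Sum.elim d.u (Sum.elim d.x q.zf))
      (ext (Sum.elim (q.E l) 0) (Pi.single l (-(q.m l * q.sg l)))) =
      mon d.u (q.E l) * (q.ζ l ^ q.m l)⁻¹ := by
  rw [mon_ext, mon_inl, mon_single]
  congr 1
  rw [zpow_neg, mul_comm, zpow_mul, q.zf_pow, zpow_natCast]

lemma kum_one (l : L) : mon (Sum.elim d.u (Sum.elim d.x q.zf))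
      (ext (Sum.elim (q.E l) 0) (Pi.single l (-(q.m l * q.sg l)))) *
      ∏ h, qv d q h ^ (Sum.elim 0 (q.G l) : H ⊕ H2 → ℕ) h = 1 := by
  rw [kum_mon, qv_new]
  have h0 : q.ζ l ^ q.m l ≠ 0 := pow_ne_zero _ (q.hζ0 l)
  rw [mul_right_comm, ← q.rel l, mul_inv_cancel₀ h0]

lemma new_sum (wt : (ι ⊕ (X ⊕ L) → ℤ) → K) (l : L) :
    ∑ t, wt (q.ke (Sum.inr l) t) * (algebraMap k K (ka d (Sum.inr l : J ⊕ L) t) *
      (mon (Sum.elim d.u (Sum.elim d.x q.zf)) (q.ke (Sum.inr l) t) *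
        ∏ h, qv d q h ^ q.kg (Sum.inr l) t h)) =
    wt (ext (Sum.elim (q.E l) 0) (Pi.single l (-(q.m l * q.sg l)))) - wt 0 := by
  rw [q.sum_new (algebraMap k K) wt (fun e => mon (Sum.elim d.u (Sum.elim d.x q.zf)) e)
    (fun o => ∏ h, qv d q h ^ o h) l, q.kum_one, mul_one]
  have h1 : mon (Sum.elim d.u (Sum.elim d.x q.zf)) (0 : ι ⊕ (X ⊕ L) → ℤ) = 1 := by simp [mon]
  rw [h1]
  simp

variable (hV : ∀ c : k, algebraMap k K c ∈ V)

include hV in
lemma unit_inv (h : H2) : (MvPolynomial.aeval ![d.u (q.gi h), d.w (q.gi h)] (q.N h) /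
      MvPolynomial.aeval ![d.u (q.gi h), d.w (q.gi h)] (q.D h))⁻¹ ∈ V := by
  rw [inv_div, div_eq_mul_inv]
  exact mul_mem (d.ev_mem hV _ _) (q.hNV h)

/-- The system with the Kummer elements. -/
noncomputable def kum : GDat (k := k) V ι (X ⊕ L) (J ⊕ L) (T ⊕ Bool) (H ⊕ H2) where
  u := d.u
  w := d.w
  x := Sum.elim d.x q.zf
  Φ := d.Φ
  gi := Sum.elim d.gi q.gi
  N := Sum.elim d.N q.N
  D := Sum.elim d.D q.D
  a := ka d
  e := q.ke
  g := q.kg
  s := Sum.elim (fun j => mp (d.s j)) (fun l => Sum.inr (Sum.inr l))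
  rk := Sum.elim d.rk (fun _ => (Finset.univ.sup d.rk) + 1)
  hu0 := d.hu0
  huV := d.huV
  hwV := d.hwV
  hx0 := by
    rintro (x | l)
    · exact d.hx0 x
    · exact q.zf_ne l
  hxV := by
    rintro (x | l)
    · exact d.hxV x
    · exact q.zf_mem l
  hΦ := d.hΦ
  hΦ0 := d.hΦ0
  hΦV := d.hΦV
  hD0 := by
    rintro (h | h)
    · exact d.hD0 h
    · exact q.hD0 h
  hDV := by
    rintro (h | h)
    · exact d.hDV h
    · exact q.hDV h
  hmon := by
    rintro (j | l) (t | b) ha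
    · simp only [ka] at ha
      simp only [ke]
      have h1 : mon q.zf (0 : L → ℤ) = 1 := by simp [mon]
      rw [mon_ext, h1, mul_one]
      exact d.hmon j t ha
    · exact absurd rfl ha
    · exact absurd rfl ha
    · cases b
      · simp only [ke]
        have h1 := q.kum_one l
        have h2 : ∏ h, qv d q h ^ (Sum.elim 0 (q.G l) : H ⊕ H2 → ℕ) h ≠ 0 := right_ne_zero_of_mul
          (a := mon (Sum.elim d.u (Sum.elim d.x q.zf))
      (ext (Sum.elim (q.E l) 0) (Pi.single l (-(q.m l * q.sg l))))) (by rw [h1]; exact one_ne_zero)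
        rw [eq_inv_of_mul_eq_one_left h1, qv_new, ← Finset.prod_inv_distrib]
        refine prod_mem fun h _ => ?_
        rw [← inv_pow]
        exact pow_mem (q.unit_inv hV h) _
      · simp [ke, mon, one_mem]
  hrow := by
    rintro (j | l)
    · have h := q.old_sum (fun _ => 1) j
      simp only [one_mul] at h
      exact h.trans (d.hrow j)
    · have h := q.new_sum (fun _ => 1) l
      simp only [one_mul, sub_self] at h
      exact h
  hd1 := by
    rintro (j | l)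
    · have h := q.old_sum (fun e => (e (mp (d.s j)) : K)) j
      simp only [ext_mp] at h
      change (∑ t, (q.ke (Sum.inl j) t (mp (d.s j)) : K) *
        (algebraMap k K (ka d (Sum.inl j : J ⊕ L) t) *
        (mon (Sum.elim d.u (Sum.elim d.x q.zf)) (q.ke (Sum.inl j) t) *
        ∏ h, qv d q h ^ q.kg (Sum.inl j) t h)) ≠ 0) ∧
        (∑ t, (q.ke (Sum.inl j) t (mp (d.s j)) : K) *
        (algebraMap k K (ka d (Sum.inl j : J ⊕ L) t) *
        (mon (Sum.elim d.u (Sum.elim d.x q.zf)) (q.ke (Sum.inl j) t) *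
        ∏ h, qv d q h ^ q.kg (Sum.inl j) t h)))⁻¹ ∈ V
      rw [h]
      exact d.hd1 j
    · have h := q.new_sum (fun e => (e (Sum.inr (Sum.inr l)) : K)) l
      change (∑ t, (q.ke (Sum.inr l) t (Sum.inr (Sum.inr l)) : K) *
        (algebraMap k K (ka d (Sum.inr l : J ⊕ L) t) *
        (mon (Sum.elim d.u (Sum.elim d.x q.zf)) (q.ke (Sum.inr l) t) *
        ∏ h, qv d q h ^ q.kg (Sum.inr l) t h)) ≠ 0) ∧
        (∑ t, (q.ke (Sum.inr l) t (Sum.inr (Sum.inr l)) : K) *
        (algebraMap k K (ka d (Sum.inr l : J ⊕ L) t) *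
        (mon (Sum.elim d.u (Sum.elim d.x q.zf)) (q.ke (Sum.inr l) t) *
        ∏ h, qv d q h ^ q.kg (Sum.inr l) t h)))⁻¹ ∈ V
      rw [h]
      have e1 : ((ext (Sum.elim (q.E l) 0 : ι ⊕ X → ℤ) (Pi.single l (-(q.m l * q.sg l))))
          (Sum.inr (Sum.inr l)) : ℤ) = -(q.m l * q.sg l) := by
        simp [ext]
      rw [e1]
      have hs : (q.sg l : K) = 1 ∨ (q.sg l : K) = -1 := by
        unfold sg
        split_ifs
        · left; simp
        · right; simp
      have hm : (q.m l : K) = algebraMap k K (q.m l) := by simp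
      have hm0 : (q.m l : K) ≠ 0 := by
        rw [hm]
        exact (map_ne_zero (algebraMap k K)).2 (q.hm l)
      have hmV : (q.m l : K)⁻¹ ∈ V := by
        rw [hm, ← map_inv₀]
        exact hV _
      push_cast
      rw [Pi.zero_apply, Int.cast_zero, sub_zero]
      rcases hs with hs | hs
      · rw [hs, mul_one]
        refine ⟨neg_ne_zero.2 hm0, ?_⟩
        rw [inv_neg]
        exact neg_mem hmV
      · rw [hs, mul_neg, mul_one, neg_neg]
        exact ⟨hm0, hmV⟩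
  hd0 := by
    rintro (j | l) (j' | l') hne hrk
    · have h := q.old_sum (fun e => (e (mp (d.s j)) : K)) j'
      simp only [ext_mp] at h
      refine h.trans ?_
      exact d.hd0 j j' (by rintro rfl; exact hne rfl) hrk
    · exfalso
      have : Finset.univ.sup d.rk + 1 ≤ d.rk j := hrk
      have := Finset.le_sup (f := d.rk) (Finset.mem_univ j)
      omega
    · have h := q.old_sum (fun e => (e (Sum.inr (Sum.inr l)) : K)) j'
      refine h.trans ?_
      simp [ext]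
    · have h := q.new_sum (fun e => (e (Sum.inr (Sum.inr l)) : K)) l'
      refine h.trans ?_
      have hll : l ≠ l' := by rintro rfl; exact hne rfl
      simp [ext, Pi.single_eq_of_ne hll]
  hdir := by
    rintro (j | l) (j' | l') t h hrk ha hg hs
    · rcases t with t | b
      · rcases h with h | h
        · refine d.hdir j j' t h hrk ha hg ?_
          have hs' : mp (d.s j) = (Sum.inl (d.gi h) : ι ⊕ (X ⊕ L)) := hs
          rcases hd : d.s j with i | x
          · rw [hd] at hs'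
            exact congrArg Sum.inl (Sum.inl_injective hs')
          · rw [hd] at hs'
            exact absurd hs' (by simp [mp])
        · exact absurd rfl hg
      · exact absurd rfl ha
    · exfalso
      have h1 : Finset.univ.sup d.rk + 1 ≤ d.rk j := hrk
      have := Finset.le_sup (f := d.rk) (Finset.mem_univ j)
      omega
    · exact absurd hs (by simp)
    · exact absurd hs (by simp)

lemma of_pow {σ E : Type*} [Field E] {θ : MvPolynomial σ k →+* E} {x : E} {m : ℕ} (hm : 0 < m)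
    (h : AlgOver θ (x ^ m)) : AlgOver θ x := by
  let _ := θ.toAlgebra
  exact IsAlgebraic.of_pow hm h

theorem kum_alg {n : ℕ} (bs : Fin n → ι) (hd : d.AlgCond bs) : (q.kum hV).AlgCond bs := by
  intro S E _ _ C0 ev φ cS wS h1 h2 h3 h4 h5 h6 h7
  obtain ⟨g1, g2⟩ := hd S E C0 ev φ (fun y => cS (mp y)) wS h1
    (fun y => by
      rw [h2]
      rcases y with i | x <;> rfl) h3 h4 h5 h6 (by
      intro j
      have h := h7 (Sum.inl j)
      have e := q.sum_old (φ.comp C0) (fun _ => 1) (fun e => mon (fun y => φ (cS y)) e)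
        (fun o => ∏ h, (φ (MvPolynomial.eval₂ C0 ![cS (Sum.inl (Sum.elim d.gi q.gi h)),
          wS (Sum.elim d.gi q.gi h)] (Sum.elim d.N q.N h)) /
        φ (MvPolynomial.eval₂ C0 ![cS (Sum.inl (Sum.elim d.gi q.gi h)),
          wS (Sum.elim d.gi q.gi h)] (Sum.elim d.D q.D h))) ^ o h) j
      simp only [one_mul] at e
      have e2 := e.symm.trans h
      refine Eq.trans ?_ e2
      refine Finset.sum_congr rfl fun t _ => ?_
      have e3 : mon (fun y => φ (cS y)) (ext (d.e j t) (0 : L → ℤ)) =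
          mon (fun y => φ (cS (mp y))) (d.e j t) := by
        rw [mon_ext']
        have : mon (fun l => φ (cS (Sum.inr (Sum.inr l)))) (0 : L → ℤ) = 1 := by simp [mon]
        rw [this, mul_one]
      rw [e3, prod_kf]
      simp only [Pi.zero_apply, pow_zero, Finset.prod_const_one, mul_one]
      rfl)
  refine ⟨?_, g2⟩
  have hw : ∀ h : H2, ∀ r : MvPolynomial (Fin 2) k,
      AlgOver (MvPolynomial.eval₂Hom (φ.comp C0) (fun j => φ (cS (Sum.inl (bs j)))))
        (φ (MvPolynomial.eval₂ C0 ![cS (Sum.inl (q.gi h)), wS (q.gi h)] r)) := by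
    intro h r
    have h8 := (g1 (Sum.inl (q.gi h))).eval2 (g2 (q.gi h))
      (φ.comp (MvPolynomial.eval₂Hom C0 ![cS (Sum.inl (q.gi h)), wS (q.gi h)]))
      (by intro c; simp) (by simp; rfl) (by simp) r
    exact h8
  have hN : ∀ l, AlgOver (MvPolynomial.eval₂Hom (φ.comp C0) (fun j => φ (cS (Sum.inl (bs j)))))
      (φ (cS (Sum.inr (Sum.inr l)))) := by
    intro l
    have h := h7 (Sum.inr l)
    have e := q.sum_new (φ.comp C0) (fun _ => 1) (fun e => mon (fun y => φ (cS y)) e)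
        (fun o => ∏ h, (φ (MvPolynomial.eval₂ C0 ![cS (Sum.inl (Sum.elim d.gi q.gi h)),
          wS (Sum.elim d.gi q.gi h)] (Sum.elim d.N q.N h)) /
        φ (MvPolynomial.eval₂ C0 ![cS (Sum.inl (Sum.elim d.gi q.gi h)),
          wS (Sum.elim d.gi q.gi h)] (Sum.elim d.D q.D h))) ^ o h) l
    simp only [one_mul] at e
    have e2 := e.symm.trans h
    have e3 : mon (fun y => φ (cS y)) (0 : ι ⊕ (X ⊕ L) → ℤ) = 1 := by simp [mon]
    have e4 : ∏ h, (φ (MvPolynomial.eval₂ C0 ![cS (Sum.inl (Sum.elim d.gi q.gi h)),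
          wS (Sum.elim d.gi q.gi h)] (Sum.elim d.N q.N h)) /
        φ (MvPolynomial.eval₂ C0 ![cS (Sum.inl (Sum.elim d.gi q.gi h)),
          wS (Sum.elim d.gi q.gi h)] (Sum.elim d.D q.D h))) ^ (0 : H ⊕ H2 → ℕ) h = 1 := by simp
    rw [e3, e4, prod_kf, mon_ext', mon_single] at e2
    set z := φ (cS (Sum.inr (Sum.inr l))) with hz
    set U := mon (fun y => φ (cS (mp y))) (Sum.elim (q.E l) 0 : ι ⊕ X → ℤ) with hU
    set P := ∏ h, (φ (MvPolynomial.eval₂ C0 ![cS (Sum.inl (q.gi h)), wS (q.gi h)] (q.N h)) /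
        φ (MvPolynomial.eval₂ C0 ![cS (Sum.inl (q.gi h)), wS (q.gi h)] (q.D h))) ^ q.G l h with hP
    have hUa : AlgOver (MvPolynomial.eval₂Hom (φ.comp C0) (fun j => φ (cS (Sum.inl (bs j))))) U :=
      AlgOver.mon g1 _
    have hPa : AlgOver (MvPolynomial.eval₂Hom (φ.comp C0) (fun j => φ (cS (Sum.inl (bs j))))) P := by
      refine AlgOver.prod _ fun h _ => AlgOver.pow ?_ _
      rw [div_eq_mul_inv]
      exact (hw h _).mul (hw h _).inv
    have e5 : U * z ^ (-(q.m l * q.sg l) : ℤ) * P = 1 := by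
      simp only [Pi.zero_apply, pow_zero, Finset.prod_const_one, one_mul, mul_one] at e2
      exact sub_eq_zero.1 e2
    have hz0 : z ≠ 0 := by
      intro h0
      have := h4 _ h0
      rw [h2] at this
      exact q.zf_ne l this
    have e6 : z ^ ((q.m l : ℤ) * q.sg l) = U * P := by
      rw [zpow_neg] at e5
      have h9 : z ^ ((q.m l : ℤ) * q.sg l) ≠ 0 := zpow_ne_zero _ hz0
      field_simp at e5
      rw [← e5]
    have hm : 0 < q.m l := Nat.pos_of_ne_zero fun h0 => q.hm l (by rw [h0]; simp)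
    have hs : q.sg l = 1 ∨ q.sg l = -1 := by
      unfold sg
      split_ifs
      · exact Or.inl rfl
      · exact Or.inr rfl
    have hUP := hUa.mul hPa
    rw [← e6] at hUP
    rcases hs with hs | hs
    · rw [hs, mul_one, zpow_natCast] at hUP
      exact of_pow hm hUP
    · rw [hs, mul_neg, mul_one, zpow_neg, zpow_natCast] at hUP
      have := hUP.inv
      rw [inv_inv] at this
      exact of_pow hm this
  rintro (i | (x | l))
  · exact g1 (Sum.inl i)
  · exact g1 (Sum.inr x)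
  · exact hN l

end KumDat

end LG
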