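import Pool.Agent.helper90.LG.GDer

open IsLocalRing

namespace LG

open LU

universe u

namespace GDat

variable {k K : Type u} [Field k] [Field K] [Algebra k K] {V : ValuationSubring K}
  {ι X J T H : Type} [Fintype ι] [DecidableEq ι] [Fintype X] [DecidableEq X] [Fintype J]
  [Fintype T] [Fintype H] (d : GDat (k := k) V ι X J T H) (hV : ∀ c : k, algebraMap k K c ∈ V)
  {C D : Matrix (ι ⊕ X) (ι ⊕ X) ℤ} (hst : IsSt V d.c C D)

lemma aeval_mem_field (L : IntermediateField k K) {ι : Type*} {z : ι → K}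
    (hz : ∀ i, z i ∈ L) (q : MvPolynomial ι k) : MvPolynomial.aeval z q ∈ L := by
  induction q using MvPolynomial.induction_on with
  | C c => rw [MvPolynomial.aeval_C]; exact L.algebraMap_mem c
  | add p q hp hq => rw [map_add]; exact add_mem hp hq
  | mul_X p i hp => rw [map_mul, MvPolynomial.aeval_X]; exact mul_mem hp (hz i)

include hV hst in
lemma gen_zz
    (hgen : IntermediateField.adjoin k (Set.range d.u ∪ Set.range d.w ∪ Set.range d.x) = ⊤) :
    IntermediateField.adjoin k (Set.range (d.zz D)) = ⊤ := by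
  set L := IntermediateField.adjoin k (Set.range (d.zz D)) with hL
  have hz : ∀ y, d.zz D y ∈ L := fun y => IntermediateField.subset_adjoin _ _ ⟨y, rfl⟩
  have hc : ∀ y, d.c y ∈ L := by
    intro y
    rw [← d.aeval_Ct hV hst y]
    exact aeval_mem_field L hz _
  rw [eq_top_iff, ← hgen, IntermediateField.adjoin_le_iff]
  rintro y ((⟨i, rfl⟩ | ⟨i, rfl⟩) | ⟨j, rfl⟩)
  · exact hc (Sum.inl i)
  · exact hz (Sum.inr i)
  · exact hc (Sum.inr j)

/-- Algebraicity of the frame and of the germs over the chosen base, in every specialization in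
which the relations hold. -/
def AlgCond {n : ℕ} (bs : Fin n → ι) : Prop :=
  ∀ (S E : Type u) [CommRing S] [Field E] (C0 : k →+* S) (ev : S →+* K) (φ : S →+* E)
    (cS : ι ⊕ X → S) (wS : ι → S),
    (∀ c, ev (C0 c) = algebraMap k K c) → (∀ y, ev (cS y) = d.c y) → (∀ i, ev (wS i) = d.w i) →
    (∀ s, φ s = 0 → ev s = 0) →
    (∀ i q, MvPolynomial.aeval ![d.u i, d.w i] q ≠ 0 →
      (MvPolynomial.aeval ![d.u i, d.w i] q)⁻¹ ∈ V →
      IsUnit (MvPolynomial.eval₂ C0 ![cS (Sum.inl i), wS i] q)) →
    (∀ i, φ (MvPolynomial.eval₂ C0 ![cS (Sum.inl i), wS i] (d.Φ i)) = 0) →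
    (∀ j, ∑ t, φ (C0 (d.a j t)) * (mon (fun y => φ (cS y)) (d.e j t) *
      ∏ h, (φ (MvPolynomial.eval₂ C0 ![cS (Sum.inl (d.gi h)), wS (d.gi h)] (d.N h)) /
        φ (MvPolynomial.eval₂ C0 ![cS (Sum.inl (d.gi h)), wS (d.gi h)] (d.D h))) ^ d.g j t h) = 0) →
    (∀ y, AlgOver (MvPolynomial.eval₂Hom (φ.comp C0) (fun j => φ (cS (Sum.inl (bs j)))))
      (φ (cS y))) ∧
    (∀ i, AlgOver (MvPolynomial.eval₂Hom (φ.comp C0) (fun j => φ (cS (Sum.inl (bs j)))))
      (φ (wS i)))

lemma gp_eq (i : ι) (q : MvPolynomial (Fin 2) k) :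
    d.st hV hst (gp C i q) = MvPolynomial.eval₂ ((d.st hV hst).comp MvPolynomial.C)
      ![d.st hV hst (Ct C (Sum.inl i)), d.st hV hst (MvPolynomial.X (Sum.inr i))] q := by
  have : (d.st hV hst).comp (MvPolynomial.aeval
      ![Ct (k := k) C (Sum.inl i), MvPolynomial.X (Sum.inr i)]).toRingHom =
      MvPolynomial.eval₂Hom ((d.st hV hst).comp MvPolynomial.C)
      ![d.st hV hst (Ct C (Sum.inl i)), d.st hV hst (MvPolynomial.X (Sum.inr i))] := by
    apply MvPolynomial.ringHom_ext
    · intro c
      simp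
    · intro i
      fin_cases i <;> simp
  exact congrArg (fun f => f q) this

end GDat

/-- The assembly. -/
theorem uniformizable_of_gdat {k K : Type u} [Field k] [Field K] [Algebra k K]
    {V : ValuationSubring K} {ι X J T H : Type} [Fintype ι] [DecidableEq ι] [Fintype X]
    [DecidableEq X] [Fintype J] [Fintype T] [Fintype H] (d : GDat (k := k) V ι X J T H)
    (hgen : IntermediateField.adjoin k (Set.range d.u ∪ Set.range d.w ∪ Set.range d.x) = ⊤)
    (hV : ∀ c : k, algebraMap k K c ∈ V) {n : ℕ} (bs : Fin n → ι)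
    (halg : AlgebraicIndependent k (fun j => d.u (bs j))) (hE : d.AlgCond bs) :
    Uniformizable k V := by
  obtain ⟨C, D, hst, hG⟩ := d.exists_st
  refine crit_blocks V hV (d.zz D) (d.zz_mem hst) (d.gen_zz hV hst hgen)
    (fun i : Fin n => GDat.Ct C (Sum.inl (bs i))) ?_ (J := ι ⊕ J)
    (Sum.elim (fun _ => 0) (fun j => d.rk j + 1))
    (Sum.elim (d.FA hV hst) (d.FR hV hst))
    ?_ (Sum.elim (GDat.vA V) (fun j => d.vL hV hst (d.s j))) ?_ ?_ ?_
  · have : (fun i => MvPolynomial.aeval (d.zz D) (GDat.Ct (k := k) C (Sum.inl (bs i)))) =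
        fun j => d.u (bs j) := by
      funext i
      rw [d.aeval_Ct hV hst]
      rfl
    rw [this]
    exact halg
  · rintro (i | j)
    · exact (d.evK_inj hV hst).1 (d.evK_FA hV hst i)
    · exact (d.evK_inj hV hst).1 (d.evK_FR hV hst hG j)
  · rintro (i | j) (i' | j') hne hrk
    · change (d.ps hV hst (GDat.vA V i) (d.FA hV hst i')).snd = 0
      rw [d.psA_FA, if_neg (by rintro rfl; exact hne rfl)]
    · simp at hrk
    · exact d.psL_FA hV hst _ i'
    · have h1 := d.snd_FR hV hst hG j j' (by simpa using hrk) 0 (by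
        rw [ZeroMemClass.coe_zero]
        exact (d.hd0 j j' (by rintro rfl; exact hne rfl) (by simpa using hrk)).symm)
      rw [map_zero] at h1
      exact h1
  · rintro (i | j)
    · change (d.ps hV hst (GDat.vA V i) (d.FA hV hst i)).snd ≠ 0
      rw [d.psA_FA, if_pos rfl]
      exact d.rg_ne hV i _ (d.hΦ0 i) (d.hΦV i)
    · have hmem : ∑ t, (d.e j t (d.s j) : K) * (algebraMap k K (d.a j t) *
          (mon d.c (d.e j t) * d.gv (d.g j t))) ∈ V := by
        refine sum_mem fun t _ => mul_mem (intCast_mem _ _) ?_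
        have h1 := d.evK_tm hV hst hG j t
        rw [← h1]
        exact (evS V hV (d.zz D) (d.zz_mem hst) (d.tm hV hst j t)).2
      have h1 := d.snd_FR hV hst hG j j le_rfl ⟨_, hmem⟩ rfl
      intro h
      change (d.ps hV hst (d.vL hV hst (d.s j)) (d.FR hV hst j)).snd = 0 at h
      rw [h] at h1
      have h2 := h1.symm
      rw [residue_eq_zero_iff, mem_maximalIdeal, mem_nonunits_iff, isUnit_iff_inv] at h2
      exact h2 (d.hd1 j)
  · intro E _ φ hφF hφ y
    have hker : ∀ s, φ s = 0 → d.evK hV hst s = 0 := fun s hs => (d.evK_inj hV hst).2 (hφ s hs)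
    have hA : ∀ i, φ (d.FA hV hst i) = 0 := fun i => hφF (Sum.inl i)
    have hR : ∀ j, φ (d.FR hV hst j) = 0 := fun j => hφF (Sum.inr j)
    have hZ : ∀ l, φ (d.Z hV hst l) ≠ 0 := fun l h => d.evK_Z_ne hV hst l (hker _ h)
    have hcne : ∀ y, φ (d.st hV hst (GDat.Ct C y)) ≠ 0 := by
      intro y h
      have := hker _ h
      rw [d.evK_st, d.aeval_Ct hV hst] at this
      exact d.c_ne y this
    obtain ⟨g1, g2⟩ := hE (d.SD hV hst) E ((d.st hV hst).comp MvPolynomial.C) (d.evK hV hst) φ
      (fun y => d.st hV hst (GDat.Ct C y)) (fun i => d.st hV hst (MvPolynomial.X (Sum.inr i)))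
      (by
        intro c
        change d.evK hV hst (d.st hV hst (MvPolynomial.C c)) = _
        rw [d.evK_st, MvPolynomial.aeval_C])
      (by
        intro y
        rw [d.evK_st, d.aeval_Ct hV hst])
      (by
        intro i
        rw [d.evK_st, MvPolynomial.aeval_X]
        rfl)
      hker
      (by
        intro i q h0 h1
        rw [← d.gp_eq hV hst, isUnit_toS_iff, d.aeval_gp hV hst]
        exact ⟨h0, h1⟩)
      (by
        intro i
        rw [← d.gp_eq hV hst]
        exact hA i)
      (by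
        intro j
        have h := hR j
        rw [GDat.FR, map_sum] at h
        rw [← h]
        refine Finset.sum_congr rfl fun t _ => ?_
        rw [GDat.tm, map_mul, map_mul, d.map_MS hV hst φ hZ (hG j t)]
        by_cases ha : d.a j t = 0
        · rw [ha]
          change φ ((d.st hV hst) (MvPolynomial.C 0)) * _ = _
          rw [map_zero, map_zero, map_zero, zero_mul, zero_mul]
        · rw [GDat.e', if_neg ha]
          congr 2
          rw [GDat.GO, map_prod]
          refine Finset.prod_congr rfl fun h _ => ?_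
          rw [map_pow, d.map_GG]
          change (φ (MvPolynomial.eval₂ _ _ _) / φ (MvPolynomial.eval₂ _ _ _)) ^ _ = _
          rw [← d.gp_eq hV hst, ← d.gp_eq hV hst])
    have hθ : MvPolynomial.eval₂Hom (φ.comp ((d.st hV hst).comp MvPolynomial.C))
        (fun j => φ (d.st hV hst (GDat.Ct C (Sum.inl (bs j))))) =
        (φ.comp (algebraMap (MvPolynomial ((ι ⊕ X) ⊕ ι) k) (d.SD hV hst))).comp
          (MvPolynomial.aeval (fun i : Fin n => GDat.Ct (k := k) C (Sum.inl (bs i))) :
            MvPolynomial (Fin n) k →ₐ[k] MvPolynomial ((ι ⊕ X) ⊕ ι) k).toRingHom := by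
      apply MvPolynomial.ringHom_ext
      · intro c
        simp
      · intro i
        simp
    rw [← hθ]
    rcases y with l | i
    · have e1 : mon (fun y => φ (d.st hV hst (GDat.Ct C y))) (D l) = φ (d.Z hV hst l) := by
        have e0 : (fun y => φ (d.st hV hst (GDat.Ct C y))) =
            fun y => mon (fun l => φ (d.Z hV hst l)) (C y) := by
          funext y
          exact d.map_Ct hV hst φ y
        rw [e0, mon_vecMul hZ]
        have : Matrix.vecMul (D l) C = (D * C) l := rfl
        rw [this, mul_eq_one_comm.1 hst.CD, mon_one]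
      change AlgOver _ (φ (d.Z hV hst l))
      rw [← e1]
      exact AlgOver.mon g1 _
    · exact g2 i

end LG
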